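import Pool.Agent.Lib.MP_6b029b_lc.U.Iface
import Pool.Agent.Lib.MP_c5d73d_lc.F.H80.Los

/-!
# Two-valued models (modules LOSA, LOSB, LOSC)

The quotient of `V^B` by an ultrafilter and the formulas for the notions of
`Pool.Agent.Lib.MP_c5d73d_lc.F.Defs` are in `Pool.Agent.Lib.MP_c5d73d_lc.F.H80`.
-/

universe u v w

open scoped symmDiff

set_option linter.unusedSimpArgs false
set_option linter.unusedVariables false

namespace Pool.Agent.Lib.MP_6b029b_lc.U.H15

open Pool.Agent.Lib.MP_100a6c_lc Pool.Agent.Lib.MP_c5d73d_lc.F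
open Pool.Agent.Lib.MP_c5d73d_lc.F.H80 Pool.Agent.Lib.MP_c5d73d_lc.F.H80.Fm

/-! ## Formulas -/

section
variable {n : ℕ}

def isf (s a b : Fin n) : Fml n :=
  an (an (.all (.imp (.mem b0 (s1 s)) (ex (ex (an (an (.mem b1 (s3 a)) (.mem b0 (s3 b)))
    (pair b2 b1 b0))))))
    (.all (.imp (.mem b0 (s1 a)) (ex (rel (s2 s) b1 b0)))))
    (.all (.all (.all (.imp (an (rel (s3 s) b2 b1) (rel (s3 s) b2 b0)) (.eq b1 b0)))))
def s4 (i : Fin n) : Fin (n + 4) := i.succ.succ.succ.succ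
def ueqf (x f g : Fin n) : Fml n :=
  ex (an (.mem b0 (s1 x)) (.all (.all (.all (.imp (an (an (.mem b2 b3) (rel (s4 f) b2 b1))
    (rel (s4 g) b2 b0)) (.eq b1 b0))))))
def ulef (x f g : Fin n) : Fml n :=
  ex (an (.mem b0 (s1 x)) (.all (.all (.all (.imp (an (an (.mem b2 b3) (rel (s4 f) b2 b1))
    (rel (s4 g) b2 b0)) (sub b1 b0))))))
def clsf (w c x t : Fin n) : Fml n :=
  ex (an (isf b0 (s1 w) (s1 c)) (.all (bi (.mem b0 (s2 t)) (an (isf b0 (s2 w) (s2 c))
    (ueqf (s2 x) b1 b0)))))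
def clef (x t t' : Fin n) : Fml n :=
  ex (ex (an (an (.mem b1 (s2 t)) (.mem b0 (s2 t'))) (ulef (s2 x) b1 b0)))
def embf (w c x P e : Fin n) : Fml n :=
  an (an (an (.all (.imp (.mem b0 (s1 P)) (ex (rel (s2 e) b1 b0))))
    (.all (.all (.imp (an (.mem b1 (s2 P)) (rel (s2 e) b1 b0))
      (clsf (s2 w) (s2 c) (s2 x) b0)))))
    (.all (.all (.all (.imp (an (rel (s3 e) b2 b1) (rel (s3 e) b2 b0)) (.eq b1 b0))))))
    (.all (.all (.all (.all (.imp (an (an (an (.mem b3 (s4 P)) (.mem b2 (s4 P)))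
      (rel (s4 e) b3 b1)) (rel (s4 e) b2 b0)) (bi (sub b3 b2) (clef (s4 x) b1 b0)))))))
def notuniv : Fml 0 :=
  ex (ex (ex (ex (an (an (an (an (om b3) (pow b2 b3)) (npu b3 b1))
    (an (le b0 b2) (le b2 b0))) (neg (ex (embf b4 b3 b2 b1 b0)))))))

variable {B : Type v} {U : Type w} [CompleteBooleanAlgebra B] (S : Str B U) (v : Fin n → U)

theorem val_isf (s a b : Fin n) : val S (isf s a b) v = S.isFun (v s) (v a) (v b) := by
  simp only [isf, Str.isFun, val_pair, val_rel, val_mem, val_eq, val_imp, val_all, val_neg, val_an, val_ore, val_bi, val_ex, b0, b1, b2, b3, b4, s1, s2, s3, s4, Fin.cons_zero, Fin.cons_succ]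
theorem val_ueqf (x f g : Fin n) : val S (ueqf x f g) v = ueq S (v x) (v f) (v g) := by
  simp only [ueqf, ueq, val_rel, val_mem, val_eq, val_imp, val_all, val_neg, val_an, val_ore, val_bi, val_ex, b0, b1, b2, b3, b4, s1, s2, s3, s4, Fin.cons_zero, Fin.cons_succ]
theorem val_ulef (x f g : Fin n) : val S (ulef x f g) v = ule S (v x) (v f) (v g) := by
  simp only [ulef, ule, val_sub, val_rel, val_mem, val_eq, val_imp, val_all, val_neg, val_an, val_ore, val_bi, val_ex, b0, b1, b2, b3, b4, s1, s2, s3, s4, Fin.cons_zero, Fin.cons_succ]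
theorem val_clsf (w c x t : Fin n) : val S (clsf w c x t) v = isCls S (v w) (v c) (v x) (v t) := by
  simp only [clsf, isCls, val_isf, val_ueqf, val_rel, val_mem, val_eq, val_imp, val_all, val_neg, val_an, val_ore, val_bi, val_ex, b0, b1, b2, b3, b4, s1, s2, s3, s4, Fin.cons_zero, Fin.cons_succ]
theorem val_clef (x t t' : Fin n) : val S (clef x t t') v = cle S (v x) (v t) (v t') := by
  simp only [clef, cle, val_ulef, val_rel, val_mem, val_eq, val_imp, val_all, val_neg, val_an, val_ore, val_bi, val_ex, b0, b1, b2, b3, b4, s1, s2, s3, s4, Fin.cons_zero, Fin.cons_succ]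
theorem val_embf (w c x P e : Fin n) : val S (embf w c x P e) v =
    isEmb S (v w) (v c) (v x) (v P) (v e) := by
  simp only [embf, isEmb, val_clsf, val_clef, val_sub, val_rel, val_mem, val_eq, val_imp, val_all, val_neg, val_an, val_ore, val_bi, val_ex, b0, b1, b2, b3, b4, s1, s2, s3, s4, Fin.cons_zero, Fin.cons_succ]
theorem val_notuniv (v : Fin 0 → U) : val S notuniv v = NotUniv S := by
  simp only [notuniv, NotUniv, val_om, val_pow, val_npu, val_ord, val_le, val_embf, val_sub, val_rel, val_mem, val_eq, val_imp, val_all, val_neg, val_an, val_ore, val_bi, val_ex, b0, b1, b2, b3, b4, s1, s2, s3, s4, Fin.cons_zero, Fin.cons_succ]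

end

/-! ## LOSA -/

theorem losA (B : Type u) [CompleteBooleanAlgebra B] (h0 : (⊥ : B) ≠ ⊤) :
    ∃ (M : Type (u + 1)) (E : M → M → Prop) (π : BName B → M) (W : Set B),
    ⊤ ∈ W ∧ ⊥ ∉ W ∧ (∀ a b, a ⊓ b ∈ W ↔ a ∈ W ∧ b ∈ W) ∧ (∀ a, aᶜ ∈ W ↔ a ∉ W) ∧
    Function.Surjective π ∧ ∀ (n : ℕ) (φ : Fml n) (v : Fin n → BName B),
      val (⟨E, Eq⟩ : Str Prop M) φ (fun i => π (v i)) ↔ val (VB B) φ v ∈ W := by
  obtain ⟨h, H⟩ := exists_ult h0
  refine ⟨Quo H, qmem H, Quotient.mk (qSetoid H), {a | h a}, H.top, H.bot, H.inf, H.compl,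
    Quotient.mk_surjective, fun n φ v => los H φ v⟩

theorem losa : LosaStatement.{u} := fun B _ h0 => losA B h0

/-! ## LOSB -/

theorem losb : LosbStatement.{v, w} :=
  ⟨⟨base, fun B U _ S => (val_base S _).symm⟩, ⟨notuniv, fun B U _ S => (val_notuniv S _).symm⟩⟩

/-! ## LOSC -/

/-- A nontrivial Boolean-valued model of ZFC and of sentences `Φ` gives a two-valued one. -/
theorem two_valued_sentence (B : Type u) [CompleteBooleanAlgebra B] (h0 : (⊥ : B) ≠ ⊤)
    (hZ : ZFC (VB B) = ⊤) : ∃ (M : Type (u + 1)) (E : M → M → Prop),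
      ZFC (⟨E, Eq⟩ : Str Prop M) ∧ ∀ φ : Fml 0, val (VB B) φ Fin.elim0 = ⊤ →
        val (⟨E, Eq⟩ : Str Prop M) φ Fin.elim0 := by
  obtain ⟨h, H⟩ := exists_ult h0
  refine ⟨Quo H, qmem H, ?_, ?_⟩
  · change ZFC (QS H)
    rw [ZFC, inf_eq_top_iff, inf_eq_top_iff] at hZ
    obtain ⟨⟨h1, h2⟩, h3⟩ := hZ
    refine ⟨⟨?_, ?_⟩, ?_⟩
    · rw [← Fm.val_base _ (Fin.elim0), los', Fm.val_base, h1]
      exact H.top
    · rw [Fm.separation_eq] at h2 ⊢
      simp only [iInf_Prop_eq]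
      intro n φ v
      rw [los']
      simp only [iInf_eq_top] at h2
      rw [h2]
      exact H.top
    · rw [Fm.replacement_eq] at h3 ⊢
      simp only [iInf_Prop_eq]
      intro n φ v
      rw [los']
      simp only [iInf_eq_top] at h3
      rw [h3]
      exact H.top
  · intro φ hφ
    change val (QS H) φ Fin.elim0
    rw [los']
    have : (fun i => ((Fin.elim0 : Fin 0 → Quo H) i).out) = (Fin.elim0 : Fin 0 → BName B) := by
      funext i
      exact i.elim0
    rw [this, hφ]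
    exact H.top

theorem losc : LoscStatement := by
  intro B _ h0 hZ hN
  obtain ⟨M, E, h1, h2⟩ := two_valued_sentence B h0 hZ
  refine ⟨M, E, h1, ?_⟩
  have := h2 notuniv (by rw [val_notuniv, hN])
  rwa [val_notuniv] at this

end Pool.Agent.Lib.MP_6b029b_lc.U.H15
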